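import Pool.Agent.H.MP_9038fc_co.Main

set_option autoImplicit false

namespace Pool.Agent.Results.MP_9038fc_co.Gap

/-- `T u v` means that the arc `u → v` is present; exactly one arc joins two distinct vertices. -/
def IsTournament {n : ℕ} (T : Fin n → Fin n → Prop) : Prop :=
  (∀ v, ¬ T v v) ∧ ∀ u v, u ≠ v → (T u v ↔ ¬ T v u)

/-- The number of Hamiltonian circuits: a circuit is given by its successor map, a cyclic
permutation moving every vertex, all of whose steps are arcs. -/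
noncomputable def numCirc {n : ℕ} (T : Fin n → Fin n → Prop) : ℕ :=
  {c : Equiv.Perm (Fin n) | c.IsCycle ∧ c.support = Finset.univ ∧ ∀ v, T v (c v)}.ncard

theorem result :
    ∃ ho : ℕ, IsGreatest {k | ∃ T : Fin 7 → Fin 7 → Prop, IsTournament T ∧ numCirc T = k} ho ∧
      16 ≤ ho ∧ ∀ T : Fin 7 → Fin 7 → Prop, IsTournament T → numCirc T ≠ 16 := by
  obtain ⟨T, h1, h2, h3⟩ := Pool.Agent.H.MP_9038fc_co.exists_ge
  have hb : BddAbove {k | ∃ T : Fin 7 → Fin 7 → Prop, IsTournament T ∧ numCirc T = k} := by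
    refine ⟨Nat.card (Equiv.Perm (Fin 7)), ?_⟩
    rintro k ⟨T, -, rfl⟩
    exact Set.ncard_le_card _
  have hm : numCirc T ∈ {k | ∃ T : Fin 7 → Fin 7 → Prop, IsTournament T ∧ numCirc T = k} :=
    ⟨T, ⟨h1, h2⟩, rfl⟩
  refine ⟨_, ⟨Nat.sSup_mem ⟨_, hm⟩ hb, fun k hk => le_csSup hb hk⟩, h3.trans (le_csSup hb hm), ?_⟩
  intro T hT
  exact Pool.Agent.H.MP_9038fc_co.not16 T hT.1 hT.2

end Pool.Agent.Results.MP_9038fc_co.Gap
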